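import Mathlib
import Pool.Agent.E8helper32.SB.Stm

/-!
# The zeros of `J_1` are real
-/

set_option autoImplicit false

open Metric Set Filter Topology ComplexConjugate

namespace Pool.Agent.E8helper99.SB

open Pool.Agent.E8helper32.SB

/-- coefficients of `0F1(;2;-κ t)` -/
noncomputable def co (κ : ℂ) (k : ℕ) : ℂ :=
  (-κ) ^ k / ((k.factorial : ℂ) * ((k + 1).factorial : ℂ))

lemma co_norm (κ : ℂ) (k : ℕ) :
    ‖co κ k‖ = ‖κ‖ ^ k / ((k.factorial : ℝ) * ((k + 1).factorial : ℝ)) := by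
  simp [co, norm_pow, norm_div, norm_mul, norm_neg]

lemma bd2 (κ : ℂ) (k : ℕ) :
    (k : ℝ) * (k + 1) * ‖co κ k‖ ≤ ‖κ‖ ^ k / (k.factorial : ℝ) := by
  rw [co_norm]
  have h1 : (0 : ℝ) < (k.factorial : ℝ) := by exact_mod_cast Nat.factorial_pos k
  have h2 : (0 : ℝ) < ((k + 1).factorial : ℝ) := by exact_mod_cast Nat.factorial_pos (k + 1)
  have h3 : (k : ℝ) * (k + 1) ≤ ((k + 1).factorial : ℝ) := by
    rw [Nat.factorial_succ]
    push_cast
    have : (k : ℝ) ≤ (k.factorial : ℝ) := by exact_mod_cast Nat.self_le_factorial k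
    nlinarith
  have h4 : 0 ≤ ‖κ‖ ^ k := by positivity
  rw [← mul_div_assoc, div_le_div_iff₀ (by positivity) h1]
  calc (k : ℝ) * (k + 1) * ‖κ‖ ^ k * (k.factorial : ℝ)
      ≤ ((k + 1).factorial : ℝ) * ‖κ‖ ^ k * (k.factorial : ℝ) := by gcongr
    _ = ‖κ‖ ^ k * ((k.factorial : ℝ) * ((k + 1).factorial : ℝ)) := by ring

lemma bd0 (κ : ℂ) (k : ℕ) : ‖co κ k‖ ≤ ‖κ‖ ^ k / (k.factorial : ℝ) := by
  rw [co_norm]
  have h1 : (0 : ℝ) < (k.factorial : ℝ) := by exact_mod_cast Nat.factorial_pos k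
  have h2 : (1 : ℝ) ≤ ((k + 1).factorial : ℝ) := by exact_mod_cast Nat.factorial_pos (k + 1)
  have h4 : 0 ≤ ‖κ‖ ^ k := by positivity
  apply div_le_div_of_nonneg_left h4 h1
  nlinarith

lemma bd1 (κ : ℂ) (k : ℕ) : (k : ℝ) * ‖co κ k‖ ≤ ‖κ‖ ^ k / (k.factorial : ℝ) := by
  rcases Nat.eq_zero_or_pos k with rfl | hk
  · simp
  · have h := bd2 κ k
    have h1 : (0 : ℝ) ≤ (k : ℝ) * ‖co κ k‖ := by positivity
    have h2 : (0 : ℝ) ≤ (k : ℝ) := by positivity
    nlinarith [norm_nonneg (co κ k), mul_nonneg h2 h1]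

/-- summability of the majorants -/
lemma summ (κ : ℂ) : Summable (fun k : ℕ => (2 : ℝ) ^ k * (‖κ‖ ^ k / (k.factorial : ℝ))) := by
  have := Real.summable_pow_div_factorial (2 * ‖κ‖)
  refine this.congr fun k => ?_
  rw [mul_pow]
  ring

lemma norm_ofReal_le {t : ℝ} (ht : t ∈ ball (0 : ℝ) 2) : ‖(t : ℂ)‖ ≤ 2 := by
  rw [mem_ball_zero_iff] at ht
  rw [Complex.norm_real]
  exact ht.le

/-- the function -/
noncomputable def A (κ : ℂ) (t : ℝ) : ℂ := ∑' k : ℕ, co κ k * (t : ℂ) ^ k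

/-- its derivative -/
noncomputable def A1 (κ : ℂ) (t : ℝ) : ℂ := ∑' k : ℕ, co κ k * ((k : ℂ) * (t : ℂ) ^ (k - 1))

/-- `t ^ 2` times the derivative -/
noncomputable def P (κ : ℂ) (t : ℝ) : ℂ := ∑' k : ℕ, co κ k * ((k : ℂ) * (t : ℂ) ^ (k + 1))

lemma P_eq (κ : ℂ) (t : ℝ) : P κ t = (t : ℂ) ^ 2 * A1 κ t := by
  unfold P A1
  rw [← tsum_mul_left]
  refine tsum_congr fun k => ?_
  rcases Nat.eq_zero_or_pos k with rfl | hk
  · simp
  · obtain ⟨j, rfl⟩ : ∃ j, k = j + 1 := ⟨k - 1, by omega⟩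
    simp only [Nat.add_sub_cancel]
    ring

lemma pow_le_two_pow {x : ℝ} (hx0 : 0 ≤ x) (hx : x ≤ 2) {m k : ℕ} (h : m ≤ k) :
    x ^ m ≤ 2 ^ k :=
  (pow_le_pow_left₀ hx0 hx m).trans (pow_le_pow_right₀ (by norm_num) h)

lemma A_hasDerivAt (κ : ℂ) {t : ℝ} (ht : t ∈ ball (0 : ℝ) 2) :
    HasDerivAt (A κ) (A1 κ t) t := by
  unfold A1
  have hA : A κ = fun t : ℝ => ∑' k : ℕ, co κ k * (t : ℂ) ^ k := rfl
  rw [hA]
  refine hasDerivAt_tsum_of_isPreconnected (summ κ) isOpen_ball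
    (convex_ball (0 : ℝ) 2).isPreconnected (g' := fun k (y : ℝ) =>
      co κ k * ((k : ℂ) * (y : ℂ) ^ (k - 1))) ?_ ?_ (mem_ball_self (by norm_num : (0 : ℝ) < 2))
      ?_ ht
  · intro n y _
    exact ((hasDerivAt_pow n (y : ℂ)).comp_ofReal).const_mul (co κ n)
  · intro n y hy
    have h1 : ‖co κ n * ((n : ℂ) * (y : ℂ) ^ (n - 1))‖
        = ((n : ℝ) * ‖co κ n‖) * ‖(y : ℂ)‖ ^ (n - 1) := by
      rw [norm_mul, norm_mul, norm_pow, Complex.norm_natCast]
      ring
    rw [h1, mul_comm]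
    exact mul_le_mul (pow_le_two_pow (norm_nonneg _) (norm_ofReal_le hy) (Nat.sub_le _ _))
      (bd1 κ n) (by positivity) (by positivity)
  · refine summable_of_ne_finset_zero (s := {0}) fun k hk => ?_
    have : k ≠ 0 := by simpa using hk
    simp [this]

lemma shift (κ : ℂ) (k : ℕ) :
    co κ (k + 1) * (((k + 1 : ℕ) : ℂ) * (((k + 1 : ℕ) : ℂ) + 1)) = -κ * co κ k := by
  unfold co
  rw [Nat.factorial_succ (k + 1), Nat.factorial_succ k]
  have h1 : (k.factorial : ℂ) ≠ 0 := by exact_mod_cast (Nat.factorial_pos k).ne'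
  have h2 : ((k : ℂ) + 1) ≠ 0 := by exact_mod_cast Nat.succ_ne_zero k
  have h3 : ((k : ℂ) + 1 + 1) ≠ 0 := by exact_mod_cast Nat.succ_ne_zero (k + 1)
  push_cast
  field_simp
  ring

lemma P_hasDerivAt (κ : ℂ) {t : ℝ} (ht : t ∈ ball (0 : ℝ) 2) :
    HasDerivAt (P κ) (-κ * (t : ℂ) * A κ t) t := by
  have hd : HasDerivAt (P κ) (∑' k : ℕ, co κ k * ((k : ℂ) * (((k + 1 : ℕ) : ℂ) * (t : ℂ) ^ k))) t := by
    have hA : P κ = fun t : ℝ => ∑' k : ℕ, co κ k * ((k : ℂ) * (t : ℂ) ^ (k + 1)) := rfl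
    rw [hA]
    refine hasDerivAt_tsum_of_isPreconnected (summ κ) isOpen_ball
      (convex_ball (0 : ℝ) 2).isPreconnected (g' := fun k (y : ℝ) =>
        co κ k * ((k : ℂ) * (((k + 1 : ℕ) : ℂ) * (y : ℂ) ^ k))) ?_ ?_
        (mem_ball_self (by norm_num : (0 : ℝ) < 2)) ?_ ht
    · intro n y _
      have := ((hasDerivAt_pow (n + 1) (y : ℂ)).comp_ofReal)
      simp only [Nat.add_sub_cancel] at this
      exact (this.const_mul (n : ℂ)).const_mul (co κ n)
    · intro n y hy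
      have h1 : ‖co κ n * ((n : ℂ) * (((n + 1 : ℕ) : ℂ) * (y : ℂ) ^ n))‖
          = ((n : ℝ) * (n + 1) * ‖co κ n‖) * ‖(y : ℂ)‖ ^ n := by
        rw [norm_mul, norm_mul, norm_mul, norm_pow, Complex.norm_natCast, Complex.norm_natCast]
        push_cast
        ring
      rw [h1, mul_comm]
      exact mul_le_mul (pow_le_two_pow (norm_nonneg _) (norm_ofReal_le hy) le_rfl)
        (bd2 κ n) (by positivity) (by positivity)
    · refine summable_of_ne_finset_zero (s := ∅) fun k hk => ?_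
      simp
  have hs : Summable (fun k : ℕ => co κ k * ((k : ℂ) * (((k + 1 : ℕ) : ℂ) * (t : ℂ) ^ k))) := by
    refine Summable.of_norm_bounded (summ κ) fun n => ?_
    have h1 : ‖co κ n * ((n : ℂ) * (((n + 1 : ℕ) : ℂ) * (t : ℂ) ^ n))‖
        = ((n : ℝ) * (n + 1) * ‖co κ n‖) * ‖(t : ℂ)‖ ^ n := by
      rw [norm_mul, norm_mul, norm_mul, norm_pow, Complex.norm_natCast, Complex.norm_natCast]
      push_cast
      ring
    rw [h1, mul_comm]
    exact mul_le_mul (pow_le_two_pow (norm_nonneg _) (norm_ofReal_le ht) le_rfl)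
      (bd2 κ n) (by positivity) (by positivity)
  have he : (∑' k : ℕ, co κ k * ((k : ℂ) * (((k + 1 : ℕ) : ℂ) * (t : ℂ) ^ k)))
      = -κ * (t : ℂ) * A κ t := by
    rw [hs.tsum_eq_zero_add]
    simp only [Nat.cast_zero, zero_mul, mul_zero, zero_add]
    unfold A
    rw [← tsum_mul_left]
    refine tsum_congr fun k => ?_
    have h := shift κ k
    have : co κ (k + 1) * (((k + 1 : ℕ) : ℂ) * (((k + 1 + 1 : ℕ) : ℂ) * (t : ℂ) ^ (k + 1)))
        = (co κ (k + 1) * (((k + 1 : ℕ) : ℂ) * (((k + 1 : ℕ) : ℂ) + 1))) * (t : ℂ) ^ (k + 1) := by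
      push_cast
      ring
    rw [this, h]
    ring
  rw [he] at hd
  exact hd

lemma A_zero (κ : ℂ) : A κ 0 = 1 := by
  unfold A
  rw [tsum_eq_single 0]
  · simp [co]
  · intro k hk
    simp [hk]

lemma prod_eq (k : ℕ) :
    ∏ j ∈ Finset.range k, (((1 : ℝ) : ℂ) + j + 1) = ((k + 1).factorial : ℂ) := by
  induction k with
  | zero => simp
  | succ k ih =>
    rw [Finset.prod_range_succ, ih, Nat.factorial_succ (k + 1)]
    push_cast
    ring

lemma A_one (κ : ℂ) : A κ 1 = Fc 1 κ := by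
  unfold A Fc
  refine tsum_congr fun k => ?_
  rw [prod_eq]
  simp [co]

lemma im_zero {κ : ℂ} (h : Fc 1 κ = 0) : κ.im = 0 := by
  have hA1 : A κ 1 = 0 := by rw [A_one, h]
  -- the Wronskian-like function
  set W : ℝ → ℂ := fun t => P κ t * conj (A κ t) with hW
  have hball : ∀ t ∈ Icc (0 : ℝ) 1, t ∈ ball (0 : ℝ) 2 := by
    intro t ht
    rw [mem_ball_zero_iff, Real.norm_eq_abs, abs_lt]
    constructor <;> linarith [ht.1, ht.2]
  have hcont : ContinuousOn (A κ) (Icc 0 1) := fun t ht =>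
    (A_hasDerivAt κ (hball t ht)).continuousAt.continuousWithinAt
  -- derivative of the imaginary part of W
  have hder : ∀ t ∈ Icc (0 : ℝ) 1,
      HasDerivAt (fun t => (W t).im) (-κ.im * (t * ‖A κ t‖ ^ 2)) t := by
    intro t ht
    have hP := P_hasDerivAt κ (hball t ht)
    have hAd := A_hasDerivAt κ (hball t ht)
    have hAc : HasDerivAt (fun t => conj (A κ t)) (conj (A1 κ t)) t := by
      have := (Complex.conjCLE.toContinuousLinearMap.hasFDerivAt (x := A κ t)).comp_hasDerivAt t hAd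
      simpa [Function.comp_def] using this
    have hm := hP.mul hAc
    have him := (Complex.imCLM.hasFDerivAt (x := W t)).comp_hasDerivAt t hm
    have he : Complex.imCLM (-κ * (t : ℂ) * A κ t * conj (A κ t) + P κ t * conj (A1 κ t))
        = -κ.im * (t * ‖A κ t‖ ^ 2) := by
      rw [P_eq]
      have e1 : -κ * (t : ℂ) * A κ t * conj (A κ t)
          = -κ * ((t * ‖A κ t‖ ^ 2 : ℝ) : ℂ) := by
        have := Complex.mul_conj' (A κ t)
        push_cast
        rw [← this]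
        ring
      have e2 : (t : ℂ) ^ 2 * A1 κ t * conj (A1 κ t) = ((t ^ 2 * ‖A1 κ t‖ ^ 2 : ℝ) : ℂ) := by
        have := Complex.mul_conj' (A1 κ t)
        push_cast
        rw [← this]
        ring
      rw [e1, e2]
      simp only [Complex.imCLM_apply, Complex.add_im, Complex.ofReal_im, add_zero,
        Complex.im_mul_ofReal, Complex.neg_im]
    rw [he] at him
    exact him
  have hint : ∫ t in (0 : ℝ)..1, (-κ.im * (t * ‖A κ t‖ ^ 2)) = (W 1).im - (W 0).im := by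
    refine intervalIntegral.integral_eq_sub_of_hasDerivAt
      (f := fun t => (W t).im) (f' := fun t => -κ.im * (t * ‖A κ t‖ ^ 2)) ?_ ?_
    · intro t ht
      rw [uIcc_of_le zero_le_one] at ht
      exact hder t ht
    · apply ContinuousOn.intervalIntegrable
      rw [uIcc_of_le zero_le_one]
      exact continuousOn_const.mul (continuousOn_id.mul (hcont.norm.pow 2))
  have hW1 : W 1 = 0 := by simp [hW, hA1]
  have hW0 : W 0 = 0 := by
    simp only [hW]
    rw [P_eq]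
    simp
  rw [hW1, hW0] at hint
  simp only [sub_self] at hint
  rw [intervalIntegral.integral_const_mul] at hint
  have hpos : 0 < ∫ t in (0 : ℝ)..1, t * ‖A κ t‖ ^ 2 := by
    refine intervalIntegral.integral_pos zero_lt_one
      (continuousOn_id.mul (hcont.norm.pow 2)) ?_ ?_
    · intro t ht
      have := ht.1.le
      positivity
    · -- continuity at 0
      have hc0 : ContinuousAt (A κ) 0 :=
        (A_hasDerivAt κ (mem_ball_self (by norm_num : (0 : ℝ) < 2))).continuousAt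
      have hne : ∀ᶠ t in 𝓝 (0 : ℝ), A κ t ≠ 0 := by
        apply hc0.eventually_ne
        rw [A_zero]
        exact one_ne_zero
      obtain ⟨ε, hε, hb⟩ := Metric.eventually_nhds_iff.1 hne
      refine ⟨min (ε / 2) 1, ⟨by positivity, min_le_right _ _⟩, ?_⟩
      have h0 : 0 < min (ε / 2) 1 := by positivity
      have h1 : A κ (min (ε / 2) 1) ≠ 0 := by
        apply hb
        rw [Real.dist_eq, sub_zero, abs_of_pos h0]
        exact (min_le_left _ _).trans_lt (by linarith)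
      have h2 : 0 < ‖A κ (min (ε / 2) 1)‖ := norm_pos_iff.2 h1
      positivity
  rcases mul_eq_zero.1 hint with h' | h'
  · simpa using h'
  · exact absurd h' hpos.ne'

theorem breal : S_BREAL := by
  intro κ h
  have him := im_zero h
  have hκ : κ = ((κ.re : ℝ) : ℂ) := by
    apply Complex.ext <;> simp [him]
  refine ⟨κ.re, ?_, hκ⟩
  by_contra hneg
  have hle : κ.re ≤ 0 := not_lt.1 hneg
  -- all terms are nonnegative
  set r : ℝ := -κ.re with hr
  have hr0 : 0 ≤ r := by linarith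
  have hterm : ∀ k : ℕ, co κ k = ((r ^ k / ((k.factorial : ℝ) * ((k + 1).factorial : ℝ)) : ℝ) : ℂ) := by
    intro k
    unfold co
    rw [hκ]
    push_cast [hr]
    ring
  have hA1 : A κ 1 = 0 := by rw [A_one, h]
  have hsum : Summable (fun k : ℕ => r ^ k / ((k.factorial : ℝ) * ((k + 1).factorial : ℝ))) := by
    refine Summable.of_nonneg_of_le (fun k => by positivity) (fun k => ?_)
      (Real.summable_pow_div_factorial r)
    apply div_le_div_of_nonneg_left (by positivity) (by positivity)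
    have h1 : (0 : ℝ) < (k.factorial : ℝ) := by exact_mod_cast Nat.factorial_pos k
    have h2 : (1 : ℝ) ≤ ((k + 1).factorial : ℝ) := by exact_mod_cast Nat.factorial_pos (k + 1)
    nlinarith
  have hA : A κ 1 = ((∑' k : ℕ, r ^ k / ((k.factorial : ℝ) * ((k + 1).factorial : ℝ)) : ℝ) : ℂ) := by
    unfold A
    rw [Complex.ofReal_tsum]
    refine tsum_congr fun k => ?_
    rw [hterm k]
    simp
  have hge : (1 : ℝ) ≤ ∑' k : ℕ, r ^ k / ((k.factorial : ℝ) * ((k + 1).factorial : ℝ)) := by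
    have := hsum.le_tsum 0 (fun j _ => by positivity)
    simpa using this
  rw [hA] at hA1
  have : (∑' k : ℕ, r ^ k / ((k.factorial : ℝ) * ((k + 1).factorial : ℝ))) = 0 := by
    exact_mod_cast hA1
  linarith

end Pool.Agent.E8helper99.SB
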